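import Pool.Agent.H610.HD.Stm3

/-!
# Hard disks: midpoint convexity of the free energy per volume
-/

set_option autoImplicit false

open MeasureTheory Set Filter Topology

namespace Pool.Agent.H353.HD610

open Pool.Agent.K4H96.HS
open Pool.Agent.H610.HD

theorem tendsto_ceil_thermo (ρ : ℝ) (hρ : 0 < ρ) :
    Tendsto (fun n : ℕ => ((⌈ρ * (n:ℝ) ^ 2⌉₊, (n:ℝ)) : ℕ × ℝ)) atTop (thermo 2 ρ) := by
  have hpow : Tendsto (fun n : ℕ => (n : ℝ) ^ 2) atTop atTop :=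
    (tendsto_pow_atTop two_ne_zero).comp tendsto_natCast_atTop_atTop
  refine tendsto_thermo 2 ρ ?_ tendsto_natCast_atTop_atTop ?_
  · exact tendsto_nat_ceil_atTop.comp (hpow.const_mul_atTop hρ)
  · simp only
    have h1 : Tendsto (fun n : ℕ => ρ + 1 / (n : ℝ) ^ 2) atTop (𝓝 (ρ + 0)) :=
      tendsto_const_nhds.add (hpow.const_div_atTop 1)
    rw [add_zero] at h1
    refine tendsto_of_tendsto_of_tendsto_of_le_of_le' (tendsto_const_nhds (x := ρ)) h1 ?_ ?_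
    · filter_upwards [hpow.eventually_gt_atTop 0] with n hn
      rw [le_div_iff₀ hn]
      exact Nat.le_ceil _
    · filter_upwards [hpow.eventually_gt_atTop 0] with n hn
      rw [div_le_iff₀ hn, add_mul, one_div, inv_mul_cancel₀ hn.ne']
      exact (Nat.ceil_lt_add_one (by positivity)).le

/-- the limit per volume -/
theorem per_volume {a ρ f : ℝ} {N : ℕ → ℕ} {L : ℕ → ℝ} {c : ℝ}
    (hf : IsFreeEnergy 2 a ρ f) (h : Tendsto (fun n => (N n, L n)) atTop (thermo 2 ρ))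
    (hN : Tendsto (fun n : ℕ => (N n : ℝ) / (n : ℝ) ^ 2) atTop (𝓝 c)) :
    Tendsto (fun n : ℕ => -(Real.log (Zpart 2 a (L n) (N n))) / (n : ℝ) ^ 2) atTop
      (𝓝 (f * c)) := by
  have h1 := hf.2.comp h
  have h2 := h1.mul hN
  refine h2.congr' ?_
  have h3 : Tendsto N atTop atTop := (thermo_fst 2 ρ).comp h
  filter_upwards [h3.eventually_gt_atTop 0, eventually_gt_atTop 0] with n hn hn'
  have h4 : (N n : ℝ) ≠ 0 := by exact_mod_cast hn.ne'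
  have h5 : (n : ℝ) ≠ 0 := by exact_mod_cast hn'.ne'
  simp only [Function.comp]
  field_simp

theorem dens3 {ρ₁ ρ₂ : ℝ} {N₁ N₂ : ℕ → ℕ}
    (d₁ : Tendsto (fun n : ℕ => (N₁ n : ℝ) / (n : ℝ) ^ 2) atTop (𝓝 ρ₁))
    (d₂ : Tendsto (fun n : ℕ => (N₂ n : ℝ) / (n : ℝ) ^ 2) atTop (𝓝 ρ₂)) :
    Tendsto (fun n : ℕ => ((2 * N₁ n + 2 * N₂ n : ℕ) : ℝ) / (n : ℝ) ^ 2) atTop
      (𝓝 (2 * ρ₁ + 2 * ρ₂)) := by
  have h4 := (d₁.const_mul 2).add (d₂.const_mul 2)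
  refine h4.congr fun n => ?_
  push_cast
  ring

theorem thermo3 {a ρ₁ ρ₂ : ℝ} (ha : 0 < a) {N₁ N₂ : ℕ → ℕ}
    (a₁ : Tendsto N₁ atTop atTop)
    (d₃ : Tendsto (fun n : ℕ => ((2 * N₁ n + 2 * N₂ n : ℕ) : ℝ) / (n : ℝ) ^ 2) atTop
      (𝓝 (2 * ρ₁ + 2 * ρ₂))) :
    Tendsto (fun n : ℕ => (2 * N₁ n + 2 * N₂ n, 2 * (n : ℝ) + 2 * a)) atTop
      (thermo 2 ((ρ₁ + ρ₂) / 2)) := by
  have a₃ : Tendsto (fun n => 2 * N₁ n + 2 * N₂ n) atTop atTop := by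
    refine tendsto_atTop_mono (fun n => ?_) a₁
    omega
  have b₃ : Tendsto (fun n : ℕ => 2 * (n : ℝ) + 2 * a) atTop atTop := by
    refine tendsto_atTop_mono (fun n => ?_) tendsto_natCast_atTop_atTop
    have : (0:ℝ) ≤ n := Nat.cast_nonneg n
    linarith
  refine tendsto_thermo 2 _ a₃ b₃ ?_
  have h5 : Tendsto (fun n : ℕ => (2 + 2 * a / (n : ℝ)) ^ 2) atTop (𝓝 ((2 + 0) ^ 2)) :=
    ((tendsto_const_nhds).add (tendsto_natCast_atTop_atTop.const_div_atTop (2 * a))).pow 2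
  have h6 := d₃.div h5 (by norm_num)
  have e : (2 * ρ₁ + 2 * ρ₂) / (2 + 0) ^ 2 = (ρ₁ + ρ₂) / 2 := by
    ring
  rw [e] at h6
  refine h6.congr' ?_
  filter_upwards [eventually_gt_atTop 0] with n hn
  have h7 : (0:ℝ) < (n : ℝ) := by exact_mod_cast hn
  have h8 : 2 + 2 * a / (n : ℝ) = (2 * (n : ℝ) + 2 * a) / n := by
    field_simp
  change ((2 * N₁ n + 2 * N₂ n : ℕ) : ℝ) / (n : ℝ) ^ 2 / (2 + 2 * a / (n : ℝ)) ^ 2 = _
  rw [h8, div_pow, div_div_div_cancel_right₀ (by positivity)]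

theorem ineq (h : S_four) {a : ℝ} (ha : 0 < a) {L : ℝ} (hL : 0 < L) {M N : ℕ}
    (p₁ : 0 < Zpart 2 a L M) (p₂ : 0 < Zpart 2 a L N) :
    -(Real.log (Zpart 2 a (2 * L + 2 * a) (2 * M + 2 * N))) / L ^ 2 ≤
      2 * (-(Real.log (Zpart 2 a L M)) / L ^ 2) + 2 * (-(Real.log (Zpart 2 a L N)) / L ^ 2) := by
  have h10 := h a L M N ha hL
  have h11 := Real.log_le_log (mul_pos (pow_pos p₁ 2) (pow_pos p₂ 2)) h10
  rw [Real.log_mul (pow_pos p₁ 2).ne' (pow_pos p₂ 2).ne', Real.log_pow, Real.log_pow] at h11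
  push_cast at h11
  have e : 2 * (-(Real.log (Zpart 2 a L M)) / L ^ 2) + 2 * (-(Real.log (Zpart 2 a L N)) / L ^ 2) =
      (-(2 * Real.log (Zpart 2 a L M) + 2 * Real.log (Zpart 2 a L N))) / L ^ 2 := by
    ring
  rw [e]
  exact div_le_div_of_nonneg_right (neg_le_neg h11) (by positivity)

theorem dens_of {ρ : ℝ} {N : ℕ → ℕ}
    (t : Tendsto (fun n : ℕ => (N n, (n:ℝ))) atTop (thermo 2 ρ)) :
    Tendsto (fun n : ℕ => (N n : ℝ) / (n : ℝ) ^ 2) atTop (𝓝 ρ) := by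
  have h := (thermo_dens 2 ρ).comp t
  refine h.congr fun n => ?_
  simp only [Function.comp]

theorem mid (h : S_four) : S_mid := by
  intro a ρ₁ ρ₂ f₁ f₂ f ha hρ₁ hρ₂ h₁ h₂ h₃
  obtain ⟨N₁, t₁⟩ : ∃ N₁ : ℕ → ℕ, Tendsto (fun n : ℕ => (N₁ n, (n:ℝ))) atTop (thermo 2 ρ₁) :=
    ⟨_, tendsto_ceil_thermo ρ₁ hρ₁⟩
  obtain ⟨N₂, t₂⟩ : ∃ N₂ : ℕ → ℕ, Tendsto (fun n : ℕ => (N₂ n, (n:ℝ))) atTop (thermo 2 ρ₂) :=
    ⟨_, tendsto_ceil_thermo ρ₂ hρ₂⟩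
  have d₁ := dens_of t₁
  have d₂ := dens_of t₂
  have a₁ : Tendsto N₁ atTop atTop := (thermo_fst 2 ρ₁).comp t₁
  have d₃ := dens3 d₁ d₂
  have t₃ := thermo3 ha a₁ d₃
  have l₁ := per_volume h₁ t₁ d₁
  have l₂ := per_volume h₂ t₂ d₂
  have l₃ := per_volume h₃ t₃ d₃
  have q₁ := t₁.eventually h₁.1
  have q₂ := t₂.eventually h₂.1
  have h9 : f * (2 * ρ₁ + 2 * ρ₂) ≤ 2 * (f₁ * ρ₁) + 2 * (f₂ * ρ₂) := by
    refine le_of_tendsto_of_tendsto l₃ ((l₁.const_mul 2).add (l₂.const_mul 2)) ?_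
    filter_upwards [q₁, q₂, eventually_gt_atTop 0] with n p₁ p₂ hn
    have hn' : (0:ℝ) < (n : ℝ) := by exact_mod_cast hn
    exact ineq h ha hn' p₁ p₂
  linarith

end Pool.Agent.H353.HD610
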